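import Mathlib

namespace Pool.Agent.Results.MP_f6a359_co.Eight

/-- Total domination number. -/
noncomputable def gammaT {V : Type} (G : SimpleGraph V) : ℕ :=
  sInf {k | ∃ S : Finset V, S.card = k ∧ ∀ v, ∃ u ∈ S, G.Adj v u}

/-- Path covering number: least number of paths such that each vertex is on exactly one. -/
noncomputable def pathCover {V : Type} (G : SimpleGraph V) : ℕ :=
  sInf {k | ∃ P : Fin k → Σ a : V, Σ b : V, G.Walk a b,
    (∀ i, (P i).2.2.IsPath) ∧ ∀ x, ∃! i, x ∈ (P i).2.2.support}

theorem result : ∃ (V : Type) (_ : Fintype V) (G : SimpleGraph V) (_ : DecidableRel G.Adj),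
    G.Connected ∧ G.IsRegularOfDegree 8 ∧ gammaT G < 2 * pathCover G := by
  let R : Option (Fin 4 × Fin 9) → Option (Fin 4 × Fin 9) → Bool := fun x y =>
    match x, y with
    | none, none => false
    | none, some b => decide (b.2.val ≤ 1)
    | some a, none => decide (a.2.val ≤ 1)
    | some a, some b => decide (a.1 = b.1 ∧ a.2 ≠ b.2 ∧ (2 ≤ a.2.val ∨ 2 ≤ b.2.val))
  let G : SimpleGraph (Option (Fin 4 × Fin 9)) :=
    { Adj := fun x y => R x y = true
      symm := ⟨by
        rintro (_ | a) (_ | b) <;> simp only [R, decide_eq_true_eq, imp_self]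
        rintro ⟨h1, h2, h3⟩
        exact ⟨h1.symm, h2.symm, h3.symm⟩⟩
      loopless := ⟨by rintro (_ | a) <;> simp [R]⟩ }
  have hadj : ∀ x y, G.Adj x y ↔ R x y = true := fun _ _ => Iff.rfl
  refine ⟨Option (Fin 4 × Fin 9), inferInstance, G,
    fun x y => inferInstanceAs (Decidable (R x y = true)), ?_, ?_, ?_⟩
  · have h0 : ∀ x, G.Reachable none x := by
      rintro (_ | ⟨i, j⟩)
      · rfl
      · by_cases hj : j.val ≤ 1
        · exact SimpleGraph.Adj.reachable (by simp [hadj, R, hj])
        · have e1 : G.Adj none (some (i, 0)) := by simp [hadj, R]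
          have e2 : G.Adj (some (i, 0)) (some (i, j)) := by
            simp only [hadj, R, decide_eq_true_eq]
            refine ⟨trivial, fun h => hj ?_, Or.inr (by omega)⟩
            rw [← h]; simp
          exact e1.reachable.trans e2.reachable
    exact ⟨fun x y => (h0 x).symm.trans (h0 y)⟩
  · intro v
    rw [← SimpleGraph.card_neighborFinset_eq_degree, SimpleGraph.neighborFinset_eq_filter]
    have : ∀ v : Option (Fin 4 × Fin 9), (Finset.univ.filter fun w => R v w = true).card = 8 := by
      decide +kernel
    exact this v
  · have hg : gammaT G ≤ 5 := by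
      apply Nat.sInf_le
      refine ⟨{none, some (0, 0), some (1, 0), some (2, 0), some (3, 0)}, by decide, ?_⟩
      simp only [hadj]
      decide +kernel
    have hne : {k | ∃ P : Fin k → Σ a, Σ b, G.Walk a b,
        (∀ i, (P i).2.2.IsPath) ∧ ∀ x, ∃! i, x ∈ (P i).2.2.support}.Nonempty := by
      let e := Fintype.equivFin (Option (Fin 4 × Fin 9))
      refine ⟨_, fun i => ⟨e.symm i, e.symm i, .nil⟩, fun i => by simp, fun x => ⟨e x, by simp, ?_⟩⟩
      intro i hi
      simp only [SimpleGraph.Walk.support_nil, List.mem_singleton] at hi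
      simp [hi]
    obtain ⟨P, hP, hx⟩ := Nat.sInf_mem hne
    have hp : 3 ≤ pathCover G := by
      by_contra hlt
      let c : Option (Fin 4 × Fin 9) → Fin 4 := fun x => match x with
        | none => 0
        | some a => a.1
      have av : ∀ a b (p : G.Walk a b), none ∉ p.support → c a = c b := by
        intro a b p
        induction p with
        | nil => intro _; rfl
        | @cons u v w h p ih =>
          intro hn
          simp only [SimpleGraph.Walk.support_cons, List.mem_cons, not_or] at hn
          rw [← ih hn.2]
          have hv : v ≠ none := fun hv => hn.2 (hv ▸ p.start_mem_support)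
          obtain ⟨u', rfl⟩ := Option.ne_none_iff_exists'.1 (Ne.symm hn.1)
          obtain ⟨v', rfl⟩ := Option.ne_none_iff_exists'.1 hv
          simp only [hadj, R, decide_eq_true_eq] at h
          exact h.1
      have one : ∀ a b (p : G.Walk a b), none ∉ p.support → ∀ x ∈ p.support, c x = c a := by
        intro a b p hn x hxp
        exact (av _ _ (p.takeUntil x hxp)
          fun h => hn (p.support_takeUntil_subset_support hxp h)).symm
      have two : ∀ a b (p : G.Walk a b), p.IsPath → ∀ x ∈ p.support, x ≠ none →
          c x = c a ∨ c x = c b := by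
        intro a b p hp x hxp hxn
        by_cases h1 : none ∈ (p.takeUntil x hxp).support
        · right
          apply av _ _ (p.dropUntil x hxp)
          intro h2
          have hnd := hp.support_nodup
          rw [← p.take_spec hxp, SimpleGraph.Walk.support_append, List.nodup_append] at hnd
          have h3 : none ∈ (p.dropUntil x hxp).support.tail := by
            rw [← SimpleGraph.Walk.cons_tail_support] at h2
            rcases List.mem_cons.1 h2 with h | h
            · exact absurd h.symm hxn
            · exact h
          exact hnd.2.2 _ h1 _ h3 rfl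
        · exact Or.inl (av _ _ _ h1).symm
      obtain ⟨i0, hi0, hu0⟩ := hx none
      have cover : ∀ j : Fin 4, j = c (P i0).1 ∨ j = c (P i0).2.1 ∨
          ∃ i, i ≠ i0 ∧ j = c (P i).1 := by
        intro j
        obtain ⟨i, hi, -⟩ := hx (some (j, 0))
        by_cases h : i = i0
        · subst h
          rcases two _ _ _ (hP i) _ hi (by simp) with h | h
          · exact Or.inl h
          · exact Or.inr (Or.inl h)
        · exact Or.inr (Or.inr ⟨i, h, one _ _ _ (fun hn => h (hu0 i hn)) _ hi⟩)
      have hk : ∀ i i' : Fin (pathCover G), i ≠ i0 → i' ≠ i0 → i = i' := by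
        intro i i' h1 h2
        have := i.2
        have := i'.2
        have := i0.2
        have h1' : i.val ≠ i0.val := fun h => h1 (Fin.ext h)
        have h2' : i'.val ≠ i0.val := fun h => h2 (Fin.ext h)
        apply Fin.ext
        unfold pathCover at *
        omega
      have h3 : ∃ t : Fin 4, ∀ j : Fin 4, j = c (P i0).1 ∨ j = c (P i0).2.1 ∨ j = t := by
        by_cases h : ∃ i, i ≠ i0
        · obtain ⟨i, hi⟩ := h
          refine ⟨c (P i).1, fun j => ?_⟩
          rcases cover j with h | h | ⟨i', h1, h2⟩
          · exact Or.inl h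
          · exact Or.inr (Or.inl h)
          · rw [hk i i' hi h1]; exact Or.inr (Or.inr h2)
        · refine ⟨0, fun j => ?_⟩
          rcases cover j with h' | h' | ⟨i', h1, -⟩
          · exact Or.inl h'
          · exact Or.inr (Or.inl h')
          · exact absurd ⟨i', h1⟩ h
      obtain ⟨t, ht⟩ := h3
      have : ∀ a b t : Fin 4, ¬ ∀ j : Fin 4, j = a ∨ j = b ∨ j = t := by decide
      exact this _ _ _ ht
    omega

end Pool.Agent.Results.MP_f6a359_co.Eight
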